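import Mathlib

set_option autoImplicit false

namespace Pool.Agent.Results.MP_0ef12e_an.FiniteRoot

/-- A random substitution: every letter is sent to a nonempty finite set of nonempty words. -/
structure RandomSubstitution (A : Type) where
  /-- the set of images of a letter -/
  img : A → Set (List A)
  finite : ∀ a, (img a).Finite
  nonempty : ∀ a, (img a).Nonempty
  ne_nil : ∀ a, ∀ u ∈ img a, u ≠ []

variable {A : Type}

/-- The set of images of a word: `ϑ(u₀⋯uₙ) = ϑ(u₀)⋯ϑ(uₙ)`. -/
def onWord (θ : RandomSubstitution A) : List A → Set (List A)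
  | [] => {[]}
  | a :: w => {x | ∃ u ∈ θ.img a, ∃ v ∈ onWord θ w, x = u ++ v}

/-- The powers `ϑ^p` on letters. -/
def power (θ : RandomSubstitution A) : ℕ → A → Set (List A)
  | 0, a => {[a]}
  | p + 1, a => {x | ∃ w ∈ power θ p a, x ∈ onWord θ w}

/-- A word is legal if it is a subword of some element of `ϑ^p(a)`. -/
def Legal (θ : RandomSubstitution A) (v : List A) : Prop :=
  ∃ (a : A) (p : ℕ), ∃ w ∈ power θ p a, v <:+: w

/-- The subshift of a random substitution. -/
def RSSubshift (θ : RandomSubstitution A) : Set (ℤ → A) :=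
  {x | ∀ (m : ℤ) (n : ℕ), Legal θ (List.ofFn fun i : Fin n => x (m + (i : ℕ)))}

/-- Compatible: all words in `ϑ(a)` have the same number of each letter. -/
def Compatible [DecidableEq A] (θ : RandomSubstitution A) : Prop :=
  ∀ a, ∀ u ∈ θ.img a, ∀ v ∈ θ.img a, ∀ b, u.count b = v.count b

/-- Primitive: for some `p ≥ 1` every letter occurs in some word of `ϑ^p(b)`, for every `b`. -/
def Primitive (θ : RandomSubstitution A) : Prop :=
  ∃ p : ℕ, 1 ≤ p ∧ ∀ a b : A, ∃ w ∈ power θ p b, a ∈ w

/-- Non-degenerate: some letter has at least two images. -/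
def NonDegenerate (θ : RandomSubstitution A) : Prop :=
  ∃ a, (θ.img a).Nontrivial

/-- The shift, `(σ x)_i = x_{i+1}`, on the subshift. -/
def shift (θ : RandomSubstitution A) (x : RSSubshift θ) : RSSubshift θ :=
  ⟨fun i => x.1 (i + 1), fun m n => by
    have h := x.2 (m + 1) n
    have e : (fun i : Fin n => x.1 (m + (i : ℕ) + 1)) = fun i : Fin n => x.1 (m + 1 + (i : ℕ)) := by
      funext i
      rw [show m + ((i : ℕ) : ℤ) + 1 = m + 1 + ((i : ℕ) : ℤ) by ring]
    rw [e]
    exact h⟩

/-! ### The example -/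

/-- letters of a block: position `r` in the block of the pair of bits `(b₁,b₂)`. -/
def L (r : ℤ) (b₁ b₂ : Bool) : Fin 3 :=
  if r = 0 then 2 else
  if r = 1 then (if b₁ then 1 else 0) else
  if r = 2 then (if b₁ then 0 else 1) else
  if r = 3 then (if b₂ then 1 else 0) else (if b₂ then 0 else 1)

/-- the block of a pair of bits -/
def blk (b : Bool × Bool) : List (Fin 3) := [L 0 b.1 b.2, L 1 b.1 b.2, L 2 b.1 b.2, L 3 b.1 b.2, L 4 b.1 b.2]

/-- the random substitution -/
def θ₁ : RandomSubstitution (Fin 3) where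
  img := fun _ => Set.range blk
  finite := fun _ => Set.finite_range blk
  nonempty := fun _ => ⟨_, ⟨(false, false), rfl⟩⟩
  ne_nil := by
    rintro _ _ ⟨b, rfl⟩
    simp [blk]

/-- the point with offset `k` and bit sequence `z` -/
def Φ (k : ℤ) (z : ℤ → Bool) (j : ℤ) : Fin 3 :=
  L ((j + k) % 5) (z (2 * ((j + k) / 5))) (z (2 * ((j + k) / 5) + 1))

theorem Φ_congr {k k' : ℤ} {z z' : ℤ → Bool} {j j' : ℤ} (h1 : (j + k) % 5 = (j' + k') % 5)
    (h2 : z (2 * ((j + k) / 5)) = z' (2 * ((j' + k') / 5)))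
    (h3 : z (2 * ((j + k) / 5) + 1) = z' (2 * ((j' + k') / 5) + 1)) : Φ k z j = Φ k' z' j' := by
  rw [Φ, Φ, h1, h2, h3]

theorem Φ_add (k : ℤ) (z : ℤ → Bool) (j : ℤ) : Φ k z j = Φ 0 z (j + k) := by
  simp [Φ]

theorem onWord_iff (w u : List (Fin 3)) : u ∈ onWord θ₁ w ↔
    ∃ ys : List (Bool × Bool), ys.length = w.length ∧ u = (ys.map blk).flatten := by
  induction w generalizing u with
  | nil =>
    simp only [onWord, Set.mem_singleton_iff, List.length_nil, List.length_eq_zero_iff,
      exists_eq_left, List.map_nil, List.flatten_nil]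
  | cons a w ih =>
    constructor
    · rintro ⟨u1, ⟨b, rfl⟩, v, hv, rfl⟩
      obtain ⟨ys, hy, rfl⟩ := (ih v).1 hv
      exact ⟨b :: ys, by simp [hy], by simp⟩
    · rintro ⟨ys, hy, rfl⟩
      match ys, hy with
      | b :: ys, hy =>
        refine ⟨blk b, ⟨b, rfl⟩, (ys.map blk).flatten, (ih _).2 ⟨ys, by simpa using hy, rfl⟩, by simp⟩

theorem flat_length (ys : List (Bool × Bool)) : (ys.map blk).flatten.length = 5 * ys.length := by
  induction ys with
  | nil => simp
  | cons b ys ih =>
    rw [List.map_cons, List.flatten_cons, List.length_append, ih]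
    simp [blk]
    ring

theorem flat_get (ys : List (Bool × Bool)) (z : ℤ → Bool)
    (h : ∀ i : ℕ, ∀ b, ys[i]? = some b → b = (z (2 * i), z (2 * i + 1))) (j : ℕ) (hj : j < 5 * ys.length) :
    (ys.map blk).flatten[j]? = some (Φ 0 z j) := by
  induction ys generalizing z j with
  | nil => simp at hj
  | cons b ys ih =>
    rw [List.map_cons, List.flatten_cons]
    have h0 := h 0 b (by simp)
    simp only [Nat.cast_zero, mul_zero, zero_add] at h0
    by_cases hj5 : j < 5
    · rw [List.getElem?_append_left (by simpa [blk] using hj5)]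
      subst h0
      have : j = 0 ∨ j = 1 ∨ j = 2 ∨ j = 3 ∨ j = 4 := by omega
      rcases this with rfl | rfl | rfl | rfl | rfl <;> simp [blk, Φ]
    · rw [List.getElem?_append_right (by simp [blk]; omega)]
      have hl : (blk b).length = 5 := by simp [blk]
      rw [hl]
      rw [List.length_cons] at hj
      rw [ih (fun n => z (n + 2)) ?_ (j - 5) (by omega)]
      · congr 1
        have e : ((j - 5 : ℕ) : ℤ) = (j : ℤ) - 5 := by omega
        apply Φ_congr
        · rw [e]; omega
        · rw [e]; congr 1; omega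
        · rw [e]; congr 1; omega
      · intro i b' hb'
        have := h (i + 1) b' (by simpa using hb')
        rw [this]
        push_cast
        constructor

theorem legal_flat (v : List (Fin 3)) (hv : Legal θ₁ v) :
    ∃ ys : List (Bool × Bool), v <:+: (ys.map blk).flatten := by
  obtain ⟨a, p, w, hw, hvw⟩ := hv
  cases p with
  | zero =>
    have hw' : w = [a] := hw
    subst hw'
    refine ⟨[(false, false)], hvw.trans ?_⟩
    have : a = 0 ∨ a = 1 ∨ a = 2 := by fin_cases a <;> simp
    rcases this with rfl | rfl | rfl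
    · exact ⟨[2], [1, 0, 1], by decide⟩
    · exact ⟨[2, 0], [0, 1], by decide⟩
    · exact ⟨[], [0, 1, 0, 1], by decide⟩
  | succ p =>
    obtain ⟨w', _, hw'⟩ := hw
    obtain ⟨ys, -, rfl⟩ := (onWord_iff _ _).1 hw'
    exact ⟨ys, hvw⟩

theorem legal_param (v : List (Fin 3)) (hv : Legal θ₁ v) :
    ∃ (k : ℤ) (z : ℤ → Bool), ∀ j : ℕ, j < v.length → v[j]? = some (Φ k z j) := by
  obtain ⟨ys, s, t, hst⟩ := legal_flat v hv
  refine ⟨s.length, fun n => if n % 2 = 0 then (ys.getD (n / 2).toNat (false, false)).1 else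
    (ys.getD (n / 2).toNat (false, false)).2, fun j hj => ?_⟩
  have h1 := flat_get ys (fun n => if n % 2 = 0 then (ys.getD (n / 2).toNat (false, false)).1 else
    (ys.getD (n / 2).toNat (false, false)).2) ?_ (s.length + j) ?_
  · rw [← hst, List.append_assoc, List.getElem?_append_right (by omega),
      List.getElem?_append_left (by omega), Nat.add_sub_cancel_left] at h1
    rw [h1, Φ_add (s.length : ℤ)]
    congr 2
    push_cast
    ring
  · intro i b hb
    have e1 : (2 * (i : ℤ)) % 2 = 0 := by omega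
    have e2 : (2 * (i : ℤ) + 1) % 2 = 1 := by omega
    have e3 : (2 * (i : ℤ)) / 2 = i := by omega
    have e4 : (2 * (i : ℤ) + 1) / 2 = i := by omega
    simp only [e1, e2, e3, e4, if_true, Int.toNat_natCast, List.getD_eq_getElem?_getD, hb,
      Option.getD_some]
    simp
  · rw [← flat_length, ← hst]
    simp only [List.length_append]
    omega

theorem power_len (p : ℕ) (a : Fin 3) : ∃ w ∈ power θ₁ p a, w.length = 5 ^ p := by
  induction p with
  | zero => exact ⟨[a], rfl, rfl⟩
  | succ p ih =>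
    obtain ⟨w, hw, hl⟩ := ih
    refine ⟨((List.replicate w.length (false, false)).map blk).flatten, ⟨w, hw,
      (onWord_iff _ _).2 ⟨_, by simp, rfl⟩⟩, ?_⟩
    rw [flat_length, List.length_replicate, hl, pow_succ]
    ring

theorem legal_of_param (r : ℕ) (z : ℤ → Bool) (n : ℕ) :
    Legal θ₁ (List.ofFn fun i : Fin n => Φ r z (i : ℕ)) := by
  obtain ⟨p, hp⟩ : ∃ p : ℕ, r + n < 5 ^ p := ⟨r + n, Nat.lt_pow_self (by norm_num)⟩
  obtain ⟨w, hw, hl⟩ := power_len p 0
  let ys : List (Bool × Bool) := List.ofFn fun i : Fin w.length => (z (2 * (i : ℕ)), z (2 * (i : ℕ) + 1))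
  have hys : ys.length = w.length := by simp [ys]
  refine ⟨0, p + 1, (ys.map blk).flatten, ⟨w, hw, (onWord_iff _ _).2 ⟨ys, hys, rfl⟩⟩, ?_⟩
  have hget : ∀ j : ℕ, j < 5 * ys.length → (ys.map blk).flatten[j]? = some (Φ 0 z j) := by
    apply flat_get
    intro i b hb
    simp only [ys, List.getElem?_ofFn] at hb
    split_ifs at hb with hi
    simpa using hb.symm
  have hlen : 5 * ys.length = 5 * 5 ^ p := by rw [hys, hl]
  have e : (List.ofFn fun i : Fin n => Φ r z (i : ℕ)) = ((ys.map blk).flatten.drop r).take n := by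
    apply List.ext_getElem?
    intro i
    rw [List.getElem?_ofFn]
    split_ifs with hi
    · rw [List.getElem?_take_of_lt hi, List.getElem?_drop, hget (r + i) (by omega)]
      rw [Φ_add (r : ℤ)]
      congr 2
      push_cast
      ring
    · rw [List.getElem?_eq_none]
      rw [List.length_take]
      omega
  rw [e]
  exact ((List.take_prefix _ _).isInfix).trans (List.drop_suffix _ _).isInfix

theorem legal_Φ (K m : ℤ) (z : ℤ → Bool) (n : ℕ) :
    Legal θ₁ (List.ofFn fun i : Fin n => Φ K z (m + (i : ℕ))) := by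
  have h := legal_of_param ((m + K) % 5).toNat (fun l => z (l + 2 * ((m + K) / 5))) n
  convert h using 2
  funext i
  have h0 : 0 ≤ (m + K) % 5 := by omega
  have h1 : (((m + K) % 5).toNat : ℤ) = (m + K) % 5 := by omega
  apply Φ_congr
  · rw [h1]; omega
  · rw [h1]; congr 1; omega
  · rw [h1]; congr 1; omega

theorem win {x : ℤ → Fin 3} (hx : x ∈ RSSubshift θ₁) (a : ℤ) (n : ℕ) :
    ∃ (k : ℤ) (z : ℤ → Bool), ∀ i, a ≤ i → i < a + n → x i = Φ k z i := by
  obtain ⟨k, z, h⟩ := legal_param _ (hx a n)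
  refine ⟨k - a, z, fun i h1 h2 => ?_⟩
  have h3 := h (i - a).toNat (by rw [List.length_ofFn]; omega)
  rw [List.getElem?_ofFn, dif_pos (by omega), Option.some_inj] at h3
  have h4 : (((i - a).toNat : ℕ) : ℤ) = i - a := by omega
  simp only [h4] at h3
  rw [show a + (i - a) = i by ring] at h3
  rw [h3, Φ_add k, Φ_add (k - a)]
  congr 1
  ring

/-- the root of the shift, as a sliding block code -/
def fmap (x : ℤ → Fin 3) (j : ℤ) : Fin 3 :=
  if x (j - 2) = 2 then 2 else if x (j - 3) = 2 ∨ x (j - 4) = 2 then x j else x (j + 1)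

theorem Φval {k : ℤ} {z : ℤ → Bool} {j : ℤ} (q r : ℤ) (h : j + k = 5 * q + r) (h0 : 0 ≤ r)
    (h5 : r < 5) : Φ k z j = L r (z (2 * q)) (z (2 * q + 1)) := by
  have e1 : (j + k) % 5 = r := by omega
  have e2 : (j + k) / 5 = q := by omega
  rw [Φ, e1, e2]

theorem fmap_Φ {x : ℤ → Fin 3} {j k : ℤ} {z : ℤ → Bool}
    (h : ∀ i, j - 4 ≤ i → i ≤ j + 1 → x i = Φ k z i) :
    fmap x j = Φ (k - 2) (fun n => z (n + 1)) j := by
  obtain ⟨q, r, hr, hr0, hr5⟩ : ∃ q r : ℤ, j + k = 5 * q + r + 2 ∧ 0 ≤ r ∧ r < 5 :=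
    ⟨(j + k - 2) / 5, (j + k - 2) % 5, by omega, by omega, by omega⟩
  have hcases : r = 0 ∨ r = 1 ∨ r = 2 ∨ r = 3 ∨ r = 4 := by omega
  rw [Φval (k := k - 2) q r (by omega) hr0 hr5]
  have a2 := h (j - 2) (by omega) (by omega)
  have a3 := h (j - 3) (by omega) (by omega)
  have a4 := h (j - 4) (by omega) (by omega)
  have a0 := h j (by omega) (by omega)
  have a1 := h (j + 1) (by omega) (by omega)
  rcases hcases with rfl | rfl | rfl | rfl | rfl
  · rw [Φval q 0 (by omega) (by omega) (by omega)] at a2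
    rw [fmap, a2]
    simp [L]
  · rw [Φval q 1 (by omega) (by omega) (by omega)] at a2
    rw [Φval q 0 (by omega) (by omega) (by omega)] at a3
    rw [Φval q 3 (by omega) (by omega) (by omega)] at a0
    rw [fmap, a2, a3, a0]
    cases z (2 * q) <;> simp [L]
  · rw [Φval q 2 (by omega) (by omega) (by omega)] at a2
    rw [Φval q 1 (by omega) (by omega) (by omega)] at a3
    rw [Φval q 0 (by omega) (by omega) (by omega)] at a4
    rw [Φval q 4 (by omega) (by omega) (by omega)] at a0
    rw [fmap, a2, a3, a4, a0]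
    cases z (2 * q) <;> simp [L]
  · rw [Φval q 3 (by omega) (by omega) (by omega)] at a2
    rw [Φval q 2 (by omega) (by omega) (by omega)] at a3
    rw [Φval q 1 (by omega) (by omega) (by omega)] at a4
    rw [Φval (q + 1) 1 (by omega) (by omega) (by omega)] at a1
    rw [fmap, a2, a3, a4, a1]
    rw [show 2 * (q + 1) = 2 * q + 1 + 1 by ring]
    cases z (2 * q) <;> cases z (2 * q + 1) <;> simp [L]
  · rw [Φval q 4 (by omega) (by omega) (by omega)] at a2
    rw [Φval q 3 (by omega) (by omega) (by omega)] at a3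
    rw [Φval q 2 (by omega) (by omega) (by omega)] at a4
    rw [Φval (q + 1) 2 (by omega) (by omega) (by omega)] at a1
    rw [fmap, a2, a3, a4, a1]
    rw [show 2 * (q + 1) = 2 * q + 1 + 1 by ring]
    cases z (2 * q) <;> cases z (2 * q + 1) <;> simp [L]

theorem fmap_mem {x : ℤ → Fin 3} (hx : x ∈ RSSubshift θ₁) : fmap x ∈ RSSubshift θ₁ := by
  intro m n
  obtain ⟨k, z, h⟩ := win hx (m - 4) (n + 6)
  have e : (fun i : Fin n => fmap x (m + (i : ℕ))) =
      fun i : Fin n => Φ (k - 2) (fun n => z (n + 1)) (m + (i : ℕ)) := by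
    funext i
    have := i.2
    apply fmap_Φ
    intro l h1 h2
    apply h l (by omega)
    push_cast
    omega
  rw [e]
  exact legal_Φ _ _ _ _

theorem fmap_fmap {x : ℤ → Fin 3} (hx : x ∈ RSSubshift θ₁) (j : ℤ) :
    fmap (fmap x) j = x (j + 1) := by
  obtain ⟨k, z, h⟩ := win hx (j - 8) 12
  have h1 : ∀ i, j - 4 ≤ i → i ≤ j + 1 → fmap x i = Φ (k - 2) (fun n => z (n + 1)) i := by
    intro i h1 h2
    apply fmap_Φ
    intro l h3 h4
    apply h l (by omega)
    push_cast
    omega
  rw [fmap_Φ h1, h (j + 1) (by omega) (by push_cast; omega)]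
  apply Φ_congr
  · omega
  · congr 1; omega
  · congr 1; omega

theorem fmap_shift (x : ℤ → Fin 3) (c : ℤ) : fmap (fun i => x (i + c)) = fun j => fmap x (j + c) := by
  funext j
  simp only [fmap]
  rw [show j - 2 + c = j + c - 2 by ring, show j - 3 + c = j + c - 3 by ring,
    show j - 4 + c = j + c - 4 by ring, show j + 1 + c = j + c + 1 by ring]

theorem fmap_cont : Continuous fmap := by
  apply continuous_pi
  intro j
  have h1 : Continuous (fun x : ℤ → Fin 3 => (x (j - 2), x (j - 3), x (j - 4), x j, x (j + 1))) := by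
    fun_prop
  have h2 : Continuous (fun t : Fin 3 × Fin 3 × Fin 3 × Fin 3 × Fin 3 =>
      if t.1 = 2 then (2 : Fin 3) else if t.2.1 = 2 ∨ t.2.2.1 = 2 then t.2.2.2.1 else t.2.2.2.2) :=
    continuous_of_discreteTopology
  exact h2.comp h1

theorem mem_shift {x : ℤ → Fin 3} (hx : x ∈ RSSubshift θ₁) (c : ℤ) :
    (fun i => x (i + c)) ∈ RSSubshift θ₁ := by
  intro m n
  have h := hx (m + c) n
  have e : (fun i : Fin n => x (m + (i : ℕ) + c)) = fun i : Fin n => x (m + c + (i : ℕ)) := by
    funext i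
    rw [show m + ((i : ℕ) : ℤ) + c = m + c + ((i : ℕ) : ℤ) by ring]
  show Legal θ₁ (List.ofFn fun i : Fin n => x (m + (i : ℕ) + c))
  rw [e]
  exact h

/-- the root of the shift on the subshift -/
def F (x : RSSubshift θ₁) : RSSubshift θ₁ := ⟨fmap x.1, fmap_mem x.2⟩

/-- its inverse -/
def G (x : RSSubshift θ₁) : RSSubshift θ₁ := ⟨fmap (fun i => x.1 (i + (-1))), fmap_mem (mem_shift x.2 _)⟩

theorem F_cont : Continuous F :=
  (fmap_cont.comp continuous_subtype_val).subtype_mk _

theorem G_cont : Continuous G := by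
  apply Continuous.subtype_mk
  apply fmap_cont.comp
  apply continuous_pi
  intro i
  exact (continuous_apply _).comp continuous_subtype_val

/-- the root as a homeomorphism -/
def homeo : RSSubshift θ₁ ≃ₜ RSSubshift θ₁ where
  toFun := F
  invFun := G
  left_inv := by
    intro x
    apply Subtype.ext
    funext j
    show fmap (fun i => fmap x.1 (i + (-1))) j = x.1 j
    rw [fmap_shift]
    beta_reduce
    rw [fmap_fmap x.2, show j + -1 + 1 = j by ring]
  right_inv := by
    intro x
    apply Subtype.ext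
    funext j
    show fmap (fmap (fun i => x.1 (i + (-1)))) j = x.1 j
    rw [fmap_fmap (mem_shift x.2 _), show j + 1 + -1 = j by ring]
  continuous_toFun := F_cont
  continuous_invFun := G_cont

/-- There are an alphabet, a primitive, compatible and non-degenerate random substitution `θ` over
it (with nonempty subshift) and an automorphism `f` of its subshift with `f^n = σ` for some
`n ≥ 2`. -/
theorem result : ∃ (d : ℕ) (θ : RandomSubstitution (Fin d)),
    Primitive θ ∧ Compatible θ ∧ NonDegenerate θ ∧ (RSSubshift θ).Nonempty ∧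
      ∃ (f : RSSubshift θ ≃ₜ RSSubshift θ) (n : ℕ), 2 ≤ n ∧
        (∀ x, f (shift θ x) = shift θ (f x)) ∧ ∀ x, (f^[n]) x = shift θ x := by
  refine ⟨3, θ₁, ⟨1, le_refl 1, ?_⟩, ?_, ⟨0, ?_⟩, ⟨Φ 0 (fun _ => false), fun m n => legal_Φ _ _ _ _⟩,
    homeo, 2, le_refl 2, ?_, ?_⟩
  · intro a b
    refine ⟨blk (false, false), ⟨[b], rfl, (onWord_iff _ _).2 ⟨[(false, false)], by simp, by simp⟩⟩, ?_⟩
    revert a
    decide
  · rintro a _ ⟨u, rfl⟩ _ ⟨v, rfl⟩ b
    revert u v b
    decide
  · exact ⟨blk (false, false), ⟨_, rfl⟩, blk (true, true), ⟨_, rfl⟩, by decide⟩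
  · intro x
    apply Subtype.ext
    exact fmap_shift x.1 1
  · intro x
    apply Subtype.ext
    funext j
    exact fmap_fmap x.2 j

end Pool.Agent.Results.MP_0ef12e_an.FiniteRoot
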